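import Pool.Agent.Helper44.CM.StmtsB5

/-!
# Project MM, row COMM: differentiating `A - κ`
-/

open MeasureTheory

namespace CM25

open CM

variable {n : ℕ}

theorem pd_contDiff {k : ℕ} {f : E n → ℝ} (hf : ContDiff ℝ (k + 1 : ℕ) f) (i : Fin n) :
    ContDiff ℝ k (pd i f) := by
  have h1 : ContDiff ℝ k (fderiv ℝ f) := by
    apply hf.fderiv_right
    exact_mod_cast le_rfl
  exact h1.clm_apply contDiff_const

theorem pd_comm {f : E n → ℝ} (hf : ContDiff ℝ 2 f) (i j : Fin n) (x : E n) :
    pd i (pd j f) x = pd j (pd i f) x := by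
  have hd : Differentiable ℝ (fderiv ℝ f) :=
    (hf.fderiv_right (m := 1) (by norm_num)).differentiable (by norm_num)
  have hsym : IsSymmSndFDerivAt ℝ f x := by
    apply hf.contDiffAt.isSymmSndFDerivAt
    simp
  have key : ∀ a b : Fin n, pd a (pd b f) x =
      fderiv ℝ (fderiv ℝ f) x (EuclideanSpace.single a 1) (EuclideanSpace.single b 1) := by
    intro a b
    unfold pd
    have h1 : HasFDerivAt (fun y => fderiv ℝ f y (EuclideanSpace.single b (1 : ℝ)))
        ((fderiv ℝ (fderiv ℝ f) x).flip (EuclideanSpace.single b (1 : ℝ))) x := by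
      have := (hd x).hasFDerivAt.clm_apply
        (hasFDerivAt_const (EuclideanSpace.single b (1 : ℝ)) x)
      simpa using this
    rw [h1.fderiv]
    rfl
  rw [key, key]
  exact hsym _ _

/-- `∂_i (x . ∇ u) = x . ∇ (∂_i u) + ∂_i u`. -/
theorem pd_eul {u : E n → ℝ} (hu : ContDiff ℝ 2 u) (i : Fin n) (x : E n) :
    pd i (eul u) x = eul (pd i u) x + pd i u x := by
  have hd : Differentiable ℝ (fderiv ℝ u) :=
    (hu.fderiv_right (m := 1) (by norm_num)).differentiable (by norm_num)
  have h1 : HasFDerivAt (eul u)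
      ((fderiv ℝ u x).comp (ContinuousLinearMap.id ℝ (E n)) +
        (fderiv ℝ (fderiv ℝ u) x).flip x) x := by
    exact (hd x).hasFDerivAt.clm_apply (hasFDerivAt_id x)
  have h2' : HasFDerivAt (fun y => fderiv ℝ u y (EuclideanSpace.single i (1 : ℝ)))
      ((fderiv ℝ (fderiv ℝ u) x).flip (EuclideanSpace.single i (1 : ℝ))) x := by
    have := (hd x).hasFDerivAt.clm_apply
      (hasFDerivAt_const (EuclideanSpace.single i (1 : ℝ)) x)
    simpa using this
  have h2 : HasFDerivAt (pd i u)
      ((fderiv ℝ (fderiv ℝ u) x).flip (EuclideanSpace.single i (1 : ℝ))) x := h2'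
  have hsym : IsSymmSndFDerivAt ℝ u x := by
    apply hu.contDiffAt.isSymmSndFDerivAt
    simp
  have e1 : pd i (eul u) x = fderiv ℝ u x (EuclideanSpace.single i 1) +
      fderiv ℝ (fderiv ℝ u) x (EuclideanSpace.single i 1) x := by
    unfold pd
    rw [h1.fderiv]
    rfl
  have e2 : eul (pd i u) x = fderiv ℝ (fderiv ℝ u) x x (EuclideanSpace.single i 1) := by
    unfold eul
    rw [h2.fderiv]
    rfl
  rw [e1, e2, hsym]
  unfold pd
  ring

theorem pd_add {f g : E n → ℝ} {x : E n} (hf : DifferentiableAt ℝ f x)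
    (hg : DifferentiableAt ℝ g x) (i : Fin n) :
    pd i (fun y => f y + g y) x = pd i f x + pd i g x := by
  unfold pd
  rw [show (fun y => f y + g y) = f + g from rfl, fderiv_add hf hg]
  rfl

theorem pd_neg {f : E n → ℝ} {x : E n} (i : Fin n) :
    pd i (fun y => - f y) x = - pd i f x := by
  unfold pd
  rw [show (fun y => - f y) = - f from rfl, fderiv_neg]
  rfl

theorem pd_sub {f g : E n → ℝ} {x : E n} (hf : DifferentiableAt ℝ f x)
    (hg : DifferentiableAt ℝ g x) (i : Fin n) :
    pd i (fun y => f y - g y) x = pd i f x - pd i g x := by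
  unfold pd
  rw [show (fun y => f y - g y) = f - g from rfl, fderiv_sub hf hg]
  rfl

theorem pd_mul {f g : E n → ℝ} {x : E n} (hf : DifferentiableAt ℝ f x)
    (hg : DifferentiableAt ℝ g x) (i : Fin n) :
    pd i (fun y => f y * g y) x = pd i f x * g x + f x * pd i g x := by
  unfold pd
  rw [show (fun y => f y * g y) = f * g from rfl, fderiv_mul hf hg]
  change f x * fderiv ℝ g x _ + g x * fderiv ℝ f x _ = _
  ring

theorem pd_const_mul {f : E n → ℝ} {x : E n} (hf : DifferentiableAt ℝ f x) (c : ℝ) (i : Fin n) :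
    pd i (fun y => c * f y) x = c * pd i f x := by
  unfold pd
  rw [fderiv_const_mul hf]
  rfl

theorem pd_sum {ι : Type*} (s : Finset ι) {f : ι → E n → ℝ} {x : E n}
    (hf : ∀ a ∈ s, DifferentiableAt ℝ (f a) x) (i : Fin n) :
    pd i (fun y => ∑ a ∈ s, f a y) x = ∑ a ∈ s, pd i (f a) x := by
  unfold pd
  rw [fderiv_fun_sum hf]
  simp

theorem st_COMM : ST_COMM := by
  intro n τ κ u i hu hτ x
  have hu2 : ContDiff ℝ 2 u := hu.of_le (by norm_num)
  have hu' : ContDiff ℝ ((2 : ℕ) + 1 : ℕ) u := by exact_mod_cast hu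
  have hp : ∀ b, ContDiff ℝ ((1 : ℕ) + 1 : ℕ) (pd b u) := fun b => pd_contDiff hu' b
  have hpp : ∀ a b, ContDiff ℝ (1 : ℕ) (pd a (pd b u)) := fun a b => pd_contDiff (hp b) a
  have hppd : ∀ a b, DifferentiableAt ℝ (pd a (pd b u)) x := fun a b =>
    (hpp a b).differentiable (by norm_num) x
  have hτd : ∀ a b, DifferentiableAt ℝ (fun y => τ y a b) x := fun a b =>
    (hτ a b).differentiable (by norm_num) x
  have heul : DifferentiableAt ℝ (eul u) x := by
    have hd : Differentiable ℝ (fderiv ℝ u) :=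
      (hu2.fderiv_right (m := 1) (by norm_num)).differentiable (by norm_num)
    exact ((hd x).hasFDerivAt.clm_apply (hasFDerivAt_id x)).differentiableAt
  have hud : DifferentiableAt ℝ u x := hu.differentiable (by norm_num) x
  have e0 : AK τ κ u = fun y => (-(∑ a, ∑ b, τ y a b * pd a (pd b u) y) + eul u y) - κ * u y := by
    funext y
    unfold AK LL tr2 hess
    simp only [Matrix.of_apply]
    ring
  have hterm : ∀ a b, DifferentiableAt ℝ (fun y => τ y a b * pd a (pd b u) y) x := fun a b =>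
    (hτd a b).mul (hppd a b)
  have hin : ∀ a, DifferentiableAt ℝ (fun y => ∑ b, τ y a b * pd a (pd b u) y) x := fun a =>
    DifferentiableAt.fun_sum (fun b _ => hterm a b)
  have hsum : DifferentiableAt ℝ (fun y => ∑ a, ∑ b, τ y a b * pd a (pd b u) y) x :=
    DifferentiableAt.fun_sum (fun a _ => hin a)
  have e1 : pd i (AK τ κ u) x =
      (-(∑ a, ∑ b, (pd i (fun y => τ y a b) x * pd a (pd b u) x +
        τ x a b * pd i (pd a (pd b u)) x)) + (eul (pd i u) x + pd i u x)) - κ * pd i u x := by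
    have hneg : DifferentiableAt ℝ (fun y => -(∑ a, ∑ b, τ y a b * pd a (pd b u) y)) x :=
      hsum.neg
    have hadd : DifferentiableAt ℝ
        (fun y => -(∑ a, ∑ b, τ y a b * pd a (pd b u) y) + eul u y) x := hneg.add heul
    have hcm : DifferentiableAt ℝ (fun y => κ * u y) x := hud.const_mul κ
    have hS : (∑ a, pd i (fun y => ∑ b, τ y a b * pd a (pd b u) y) x) =
        ∑ a, ∑ b, (pd i (fun y => τ y a b) x * pd a (pd b u) x +
          τ x a b * pd i (pd a (pd b u)) x) := by
      refine Finset.sum_congr rfl fun a _ => ?_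
      rw [pd_sum _ (fun b _ => hterm a b)]
      refine Finset.sum_congr rfl fun b _ => ?_
      rw [pd_mul (hτd a b) (hppd a b)]
    rw [e0, pd_sub hadd hcm, pd_add hneg heul, pd_neg,
      pd_const_mul hud, pd_eul hu2, pd_sum _ (fun a _ => hin a), hS]
  have e2 : AK τ (κ - 1) (pd i u) x =
      -(∑ a, ∑ b, τ x a b * pd a (pd b (pd i u)) x) + eul (pd i u) x - (κ - 1) * pd i u x := by
    unfold AK LL tr2 hess
    simp only [Matrix.of_apply]
    ring
  have e3 : ∀ a b, pd a (pd b (pd i u)) x = pd i (pd a (pd b u)) x := by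
    intro a b
    have h1 : pd b (pd i u) = pd i (pd b u) := funext fun y => pd_comm hu2 b i y
    rw [h1]
    have h2 : ContDiff ℝ 2 (pd b u) := by exact_mod_cast hp b
    exact pd_comm h2 a i x
  rw [e1, e2]
  simp only [e3]
  have e4 : ∑ a, ∑ b, (pd i (fun y => τ y a b) x * pd a (pd b u) x +
        τ x a b * pd i (pd a (pd b u)) x) =
      (∑ a, ∑ b, pd i (fun y => τ y a b) x * pd a (pd b u) x) +
        ∑ a, ∑ b, τ x a b * pd i (pd a (pd b u)) x := by
    rw [← Finset.sum_add_distrib]
    refine Finset.sum_congr rfl fun a _ => ?_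
    rw [← Finset.sum_add_distrib]
  rw [e4]
  ring

end CM25
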